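import Mathlib

/-! Covering a box by translates of a smaller similar box. -/

set_option autoImplicit false

open Finset

namespace Pool.Agent.TH468.IG

theorem half_step {L s : ℕ} (hs : 2 ≤ s) : 2 * (L / (s - 1)) + 1 ≤ 3 * (2 * (L / s) + 1) := by
  have h1 : L / (s - 1) ≤ 2 * (L / s) + 1 := by
    rw [← Nat.lt_succ_iff]
    apply Nat.div_lt_of_lt_mul
    have h2 := Nat.div_add_mod L s
    have h3 := Nat.mod_lt L (show 0 < s by omega)
    obtain ⟨r, rfl⟩ : ∃ r, s = r + 2 := ⟨s - 2, by omega⟩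
    have e : r + 2 - 1 = r + 1 := by omega
    rw [e]
    set q := L / (r + 2)
    set m := L % (r + 2)
    calc L = (r + 2) * q + m := h2.symm
      _ < (r + 2) * q + (r + 2) := by omega
      _ ≤ (r + 1) * (2 * q + 1 + 1) := by nlinarith
      _ = (r + 1) * (2 * q + 1).succ := rfl
  omega

/-- the scale -/
theorem exists_scale {d : ℕ} (L : Fin d → ℕ) {V F : ℕ} (hV : 1 ≤ V) (hF : 1 ≤ F)
    (hLV : ∏ i, (2 * L i + 1) ≤ F * V) :
    ∃ M : Fin d → ℕ, (∀ i, M i ≤ L i) ∧ ∏ i, (2 * M i + 1) ≤ V ∧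
      ∏ i, (2 * L i / (2 * M i + 1) + 1) ≤ 6 ^ d * F := by
  classical
  let P : ℕ → ℕ := fun s => ∏ i, (2 * (L i / s) + 1)
  have hex : ∃ s, 1 ≤ s ∧ P s ≤ V := by
    refine ⟨(∑ i, L i) + 1, by omega, ?_⟩
    have : P ((∑ i, L i) + 1) = 1 := by
      refine prod_eq_one fun i _ => ?_
      have : L i < (∑ i, L i) + 1 := by
        have := single_le_sum (f := L) (fun _ _ => Nat.zero_le _) (mem_univ i)
        omega
      rw [Nat.div_eq_of_lt this, mul_zero, zero_add]
    omega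
  have hs := Nat.find_spec hex
  have hmin : ∀ m, m < Nat.find hex → ¬ (1 ≤ m ∧ P m ≤ V) := fun m hm => Nat.find_min hex hm
  set s := Nat.find hex with hsdef
  refine ⟨fun i => L i / s, fun i => Nat.div_le_self _ _, hs.2, ?_⟩
  rcases Nat.lt_or_ge s 2 with h1 | h2
  · have hs1 : s = 1 := by omega
    calc ∏ i, (2 * L i / (2 * (L i / s) + 1) + 1) = ∏ i : Fin d, 1 := by
          refine prod_congr rfl fun i _ => ?_
          rw [hs1, Nat.div_one, Nat.div_eq_of_lt (by omega)]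
      _ = 1 := by simp
      _ ≤ 6 ^ d * F := Nat.one_le_iff_ne_zero.mpr (by positivity)
  · have h3 := hmin (s - 1) (by omega)
    have h4 : V < P (s - 1) := by
      by_contra hcon
      exact h3 ⟨by omega, by omega⟩
    have h5 : P (s - 1) ≤ 3 ^ d * P s := by
      calc P (s - 1) ≤ ∏ i, (3 * (2 * (L i / s) + 1)) :=
            prod_le_prod' fun i _ => half_step h2
        _ = 3 ^ d * P s := by
            rw [prod_mul_distrib]; simp [P]
    have h6 : (∏ i, (2 * L i / (2 * (L i / s) + 1) + 1)) * P s ≤ 2 ^ d * (F * V) := by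
      calc (∏ i, (2 * L i / (2 * (L i / s) + 1) + 1)) * P s
          = ∏ i, ((2 * L i / (2 * (L i / s) + 1) + 1) * (2 * (L i / s) + 1)) := by
            rw [prod_mul_distrib]
        _ ≤ ∏ i, (2 * (2 * L i + 1)) := by
            refine prod_le_prod' fun i _ => ?_
            have e1 := Nat.div_mul_le_self (2 * L i) (2 * (L i / s) + 1)
            have e2 := Nat.div_le_self (L i) s
            rw [add_mul, one_mul]
            omega
        _ = 2 ^ d * ∏ i, (2 * L i + 1) := by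
            rw [prod_mul_distrib]; simp
        _ ≤ _ := Nat.mul_le_mul_left _ hLV
    set N := ∏ i, (2 * L i / (2 * (L i / s) + 1) + 1) with hN
    have h7 : N * V ≤ (6 ^ d * F) * V := by
      calc N * V ≤ N * (3 ^ d * P s) := Nat.mul_le_mul_left _ (h4.le.trans h5)
        _ = 3 ^ d * (N * P s) := by ring
        _ ≤ 3 ^ d * (2 ^ d * (F * V)) := Nat.mul_le_mul_left _ h6
        _ = (6 ^ d * F) * V := by
            have : (6 : ℕ) ^ d = 3 ^ d * 2 ^ d := by rw [← mul_pow]; norm_num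
            rw [this]; ring
    exact Nat.le_of_mul_le_mul_right h7 (by omega)

/-- the centres in one coordinate -/
def cen (L M : ℕ) (j : ℕ) : ℤ := -(L : ℤ) + (2 * M + 1) * j + M

theorem exists_cen {L M : ℕ} {c : ℤ} (hc : |c| ≤ L) :
    ∃ j < 2 * L / (2 * M + 1) + 1, |c - cen L M j| ≤ M := by
  rw [abs_le] at hc
  obtain ⟨u, hu⟩ : ∃ u : ℕ, (u : ℤ) = c + L := ⟨(c + L).toNat, Int.toNat_of_nonneg (by omega)⟩
  have hu2 : u ≤ 2 * L := by omega
  refine ⟨u / (2 * M + 1), ?_, ?_⟩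
  · exact Nat.lt_succ_of_le (Nat.div_le_div_right hu2)
  · have h1 := Nat.div_add_mod u (2 * M + 1)
    have h2 := Nat.mod_lt u (show 0 < 2 * M + 1 by omega)
    have h3 : (u : ℤ) = (2 * M + 1) * ((u / (2 * M + 1) : ℕ) : ℤ) + ((u % (2 * M + 1) : ℕ) : ℤ) := by
      exact_mod_cast h1.symm
    have h4 : ((u % (2 * M + 1) : ℕ) : ℤ) < 2 * M + 1 := by exact_mod_cast h2
    have h5 : (0 : ℤ) ≤ ((u % (2 * M + 1) : ℕ) : ℤ) := Int.natCast_nonneg _
    unfold cen
    rw [abs_le]
    constructor <;> linarith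

/-- Covering a box progression of size at most `F V` by `6 ^ d F` translates of one of size at
most `V`. -/
theorem shrink {G : Type*} [AddCommGroup G] [DecidableEq G] {d : ℕ} (v : Fin d → G)
    (L : Fin d → ℕ) {V F : ℕ} (hV : 1 ≤ V) (hF : 1 ≤ F) (hLV : ∏ i, (2 * L i + 1) ≤ F * V) :
    ∃ (M : Fin d → ℕ) (S : Finset G), ∏ i, (2 * M i + 1) ≤ V ∧ S.card ≤ 6 ^ d * F ∧
      ∀ a : Fin d → ℤ, (∀ i, |a i| ≤ L i) → ∃ s ∈ S, ∃ c : Fin d → ℤ, (∀ i, |c i| ≤ M i) ∧
        ∑ i, a i • v i = s + ∑ i, c i • v i := by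
  classical
  obtain ⟨M, -, hM2, hM3⟩ := exists_scale L hV hF hLV
  refine ⟨M, (Fintype.piFinset fun i => range (2 * L i / (2 * M i + 1) + 1)).image
    (fun j => ∑ i, cen (L i) (M i) (j i) • v i), hM2, ?_, ?_⟩
  · refine card_image_le.trans ?_
    rw [Fintype.card_piFinset]
    simpa using hM3
  · intro a ha
    choose j hj hj2 using fun i => exists_cen (M := M i) (ha i)
    refine ⟨∑ i, cen (L i) (M i) (j i) • v i, ?_, fun i => a i - cen (L i) (M i) (j i), hj2, ?_⟩
    · rw [mem_image]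
      exact ⟨j, by rw [Fintype.mem_piFinset]; intro i; rw [mem_range]; exact hj i, rfl⟩
    · rw [← sum_add_distrib]
      refine sum_congr rfl fun i _ => ?_
      rw [← add_smul]
      congr 1
      ring

end Pool.Agent.TH468.IG
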