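import Pool.Agent.TH513.IS.Final
import Pool.Agent.W860.OB.Main
import Pool.Agent.TH468.IG.Shrink
set_option autoImplicit false

/-! Iterated sumsets and generalised arithmetic progressions. -/

namespace Pool.Agent.TH468.IG

open Finset H112 W860.OB
open scoped Pointwise

/-- the lattice points of a convex body lie in a box progression (from `W860.OB.Gap`) -/
theorem body_box {m : ℕ} {B : Set (Fin m → ℝ)} (hB : SymmBody B) :
    ∃ (k : ℕ) (w : Fin k → (Fin m → ℤ)) (L : Fin k → ℕ), k ≤ m ∧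
      (∀ z : Fin m → ℤ, (fun i => (z i : ℝ)) ∈ B →
        ∃ a : Fin k → ℤ, (∀ i, |a i| ≤ L i) ∧ z = ∑ i, a i • w i) ∧
      ∏ i, (2 * L i + 1) ≤ (36 * k ^ 6) ^ k * {c : Fin m → ℤ | (fun i => (c i : ℝ)) ∈ B}.ncard := by
  classical
  obtain ⟨hconv, hcomp, ⟨x0, hx0⟩, hsymm⟩ := hB
  have h0 : (0 : Fin m → ℝ) ∈ interior B := by
    have h1 : -x0 ∈ B := hsymm _ (interior_subset hx0)
    have h2 := hconv.openSegment_interior_self_subset_interior hx0 h1
    apply h2
    exact ⟨1 / 2, 1 / 2, by norm_num, by norm_num, by norm_num, by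
      rw [← smul_add, add_neg_cancel, smul_zero]⟩
  have hnhds : B ∈ nhds (0 : Fin m → ℝ) := mem_interior_iff_mem_nhds.1 h0
  have hbal : Balanced ℝ B := (balanced_iff_neg_mem hconv).2 fun x hx => hsymm x hx
  let N : Seminorm ℝ (Fin m → ℝ) := gaugeSeminorm hbal hconv (absorbent_nhds_zero hnhds)
  have hN : ∀ x, N x ≤ 1 ↔ x ∈ B := by
    intro x
    have h1 : N x = gauge B x := rfl
    rw [h1, gauge_le_one_iff_mem_closure hconv hnhds, hcomp.isClosed.closure_eq]
  have hset : LL N 1 = {c : Fin m → ℤ | (fun i => (c i : ℝ)) ∈ B} := by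
    ext c
    exact hN _
  have hfin : (LL N 1).Finite := by
    rw [hset]
    obtain ⟨R, hR⟩ := hcomp.isBounded.subset_closedBall (0 : Fin m → ℝ)
    apply (Set.finite_Icc (fun _ => -⌈|R|⌉ : Fin m → ℤ) (fun _ => ⌈|R|⌉)).subset
    intro c hc
    have h1 := hR hc
    rw [mem_closedBall_zero_iff] at h1
    have h2 : ∀ i, |(c i : ℝ)| ≤ |R| := fun i =>
      (norm_le_pi_norm (fun i => (c i : ℝ)) i).trans (h1.trans (le_abs_self R))
    rw [Set.mem_Icc]
    constructor
    · intro i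
      have h3 := (abs_le.1 (h2 i)).1
      have h4 : (-⌈|R|⌉ : ℤ) ≤ c i := by
        have h5 : -(⌈|R|⌉ : ℝ) ≤ c i := by
          have := Int.le_ceil |R|
          linarith
        exact_mod_cast h5
      exact h4
    · intro i
      have h3 := (abs_le.1 (h2 i)).2
      have h4 : c i ≤ ⌈|R|⌉ := by
        have h5 : (c i : ℝ) ≤ (⌈|R|⌉ : ℝ) := h3.trans (Int.le_ceil |R|)
        exact_mod_cast h5
      exact h4
  obtain ⟨k, w, L, hk, hw, hL⟩ := outer_box N zero_le_one hfin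
  refine ⟨k, w, L, hk, ?_, ?_⟩
  · intro z hz
    exact hw z ((hN _).2 hz)
  · rw [← hset]; exact hL


/-- numerical bound for the loss -/
theorem num {k r n : ℕ} {L : ℝ} (hk : 1 ≤ k) (hn : 2 ≤ n) (hnL : (n : ℝ) ≤ 2 * L)
    (hkn : Real.log (2 * L) ≤ (n : ℝ) ^ k)
    (hr : (r : ℝ) ≤ 420 * (1 + Real.log (2 * L) / Real.log n)) :
    (216 * (r : ℝ) ^ 6) ^ r ≤ (2 * L) ^ (66000 * k) := by
  have hnR : (2 : ℝ) ≤ n := by exact_mod_cast hn
  have hkR : (1 : ℝ) ≤ k := by exact_mod_cast hk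
  have hL0 : 0 < 2 * L := by linarith
  rcases Nat.eq_zero_or_pos r with h0 | hpos
  · subst h0
    rw [pow_zero]
    exact one_le_pow₀ (by linarith)
  have hr0 : (1 : ℝ) ≤ r := by exact_mod_cast hpos
  obtain ⟨ℓ, hℓ⟩ : ∃ ℓ, ℓ = Real.log (2 * L) := ⟨_, rfl⟩
  obtain ⟨t, ht⟩ : ∃ t, t = Real.log n := ⟨_, rfl⟩
  rw [← hℓ] at hkn hr
  rw [← ht] at hr
  have ht69 : 0.69 ≤ t := by
    have h1 : Real.log 2 ≤ Real.log n := Real.log_le_log (by norm_num) hnR
    have := Real.log_two_gt_d9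
    rw [ht]; linarith
  have htℓ : t ≤ ℓ := by
    rw [ht, hℓ]; exact Real.log_le_log (by linarith) hnL
  have hℓ0 : 0 < ℓ := by linarith
  have ht0 : 0 < t := by linarith
  have hlogℓ : Real.log ℓ ≤ k * t := by
    have h1 := Real.log_le_log hℓ0 hkn
    rw [Real.log_pow, ← ht] at h1
    exact h1
  have hr2 : (r : ℝ) ≤ 840 * (ℓ / t) := by
    have : 1 ≤ ℓ / t := by rw [le_div_iff₀ ht0]; linarith
    linarith
  have hlogr : Real.log r ≤ 6.94 + k * t + 0.45 := by
    have h1 : Real.log r ≤ Real.log (840 * (ℓ / t)) := Real.log_le_log (by linarith) hr2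
    rw [Real.log_mul (by norm_num) (by positivity), Real.log_div hℓ0.ne' ht0.ne'] at h1
    have h2 : Real.log 840 ≤ 6.94 := by
      have h3 : Real.log 840 ≤ Real.log (2 ^ 10) := Real.log_le_log (by norm_num) (by norm_num)
      rw [Real.log_pow] at h3
      have := Real.log_two_lt_d9
      push_cast at h3
      linarith
    have h4 : -Real.log t ≤ 0.45 := by
      have h5 := Real.log_le_sub_one_of_pos (show 0 < t⁻¹ by positivity)
      rw [Real.log_inv] at h5
      have h6 : t⁻¹ ≤ 1.45 := by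
        rw [inv_le_comm₀ ht0 (by norm_num)]
        norm_num
        linarith
      linarith
    linarith
  have hlog : Real.log (216 * (r : ℝ) ^ 6) ≤ 78.5 * (k * t) := by
    rw [Real.log_mul (by norm_num) (by positivity), Real.log_pow]
    have h2 : Real.log 216 ≤ 5.55 := by
      have h3 : Real.log 216 ≤ Real.log (2 ^ 8) := Real.log_le_log (by norm_num) (by norm_num)
      rw [Real.log_pow] at h3
      have := Real.log_two_lt_d9
      push_cast at h3
      linarith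
    have h3 : 0.69 ≤ k * t := by nlinarith
    push_cast
    linarith
  have hpos2 : 0 < 216 * (r : ℝ) ^ 6 := by positivity
  calc (216 * (r : ℝ) ^ 6) ^ r = Real.exp (r * Real.log (216 * (r : ℝ) ^ 6)) := by
        rw [Real.exp_nat_mul, Real.exp_log hpos2]
    _ ≤ Real.exp ((66000 * k : ℕ) * ℓ) := by
        apply Real.exp_le_exp.2
        have h7 : 0 ≤ 78.5 * (k * t) := by positivity
        calc (r : ℝ) * Real.log (216 * (r : ℝ) ^ 6) ≤ r * (78.5 * (k * t)) :=
              mul_le_mul_of_nonneg_left hlog (by linarith)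
          _ ≤ (840 * (ℓ / t)) * (78.5 * (k * t)) := mul_le_mul_of_nonneg_right hr2 h7
          _ = 65940 * (k * ℓ) := by field_simp; ring
          _ ≤ 66000 * (k * ℓ) := by
              apply mul_le_mul_of_nonneg_right (by norm_num)
              positivity
          _ = _ := by push_cast; ring
    _ = (2 * L) ^ (66000 * k) := by
        rw [Real.exp_nat_mul, hℓ, Real.exp_log hL0]

/-- the dimension after the reduction to `n ≤ 2 L` -/
theorem dim_aux {m : ℕ} {L : ℝ} (hm : 2 ≤ m) (h1 : (m : ℝ) ≤ 2 * L) (h2 : 2 * L < m + 1) :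
    Real.log (2 * L) / Real.log m ≤ 1.6 := by
  have hmR : (2 : ℝ) ≤ m := by exact_mod_cast hm
  have hlm : 0 < Real.log m := Real.log_pos (by linarith)
  rw [div_le_iff₀ hlm]
  have h3 : ((m : ℝ) + 1) ^ 5 ≤ (m : ℝ) ^ 8 := by
    have h4 : (m + 1) ^ 5 ≤ m ^ 8 := by
      rcases Nat.lt_or_ge m 3 with h | h
      · have : m = 2 := by omega
        subst this; norm_num
      · have h5 : 3 * (m + 1) ≤ 4 * m := by omega
        have h6 : (3 * (m + 1)) ^ 5 ≤ (4 * m) ^ 5 := Nat.pow_le_pow_left h5 5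
        rw [mul_pow, mul_pow] at h6
        have h7 : 4 ^ 5 * m ^ 5 ≤ 3 ^ 5 * m ^ 8 := by
          have h8 : 3 ^ 3 ≤ m ^ 3 := Nat.pow_le_pow_left h 3
          calc 4 ^ 5 * m ^ 5 ≤ 3 ^ 5 * (3 ^ 3 * m ^ 5) := by nlinarith [Nat.zero_le (m ^ 5)]
            _ ≤ 3 ^ 5 * (m ^ 3 * m ^ 5) := by gcongr
            _ = 3 ^ 5 * m ^ 8 := by ring
        have h9 := h6.trans h7
        exact Nat.le_of_mul_le_mul_left h9 (by norm_num)
    exact_mod_cast h4
  have h4 : Real.log (2 * L) ≤ Real.log (m + 1) := Real.log_le_log (by linarith) h2.le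
  have h5 := Real.log_le_log (by positivity) h3
  rw [Real.log_pow, Real.log_pow] at h5
  push_cast at h5
  linarith

/-- **Iterated sumsets are covered by polynomially many translates of a coset progression.** -/
theorem iterated_gap {G : Type*} [AddCommGroup G] [DecidableEq G] {k n : ℕ} (hk : 1 ≤ k)
    (hn : 2 ≤ n) {L : ℝ} {A : Finset G} (hA : A.Nonempty)
    (hL : ((TH513.IS.sm A n).card : ℝ) ≤ L * A.card) (hkn : Real.log (2 * L) ≤ (n : ℝ) ^ k) :
    ∃ (d : ℕ) (v : Fin d → G) (M : Fin d → ℕ) (H₀ : AddSubgroup G) (T : Finset G),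
      (d : ℝ) ≤ 1100 * (1 + Real.log (2 * L) / Real.log n) ∧ Finite H₀ ∧
      (∏ i, (2 * M i + 1)) * Nat.card H₀ ≤ A.card ∧
      (T.card : ℝ) ≤ (2 * L) ^ (152000 * k) ∧
      ∀ a ∈ A, ∃ t ∈ T, ∃ c : Fin d → ℤ, (∀ i, |c i| ≤ M i) ∧ ∃ h ∈ H₀,
        a = t + ∑ i, c i • v i + h := by
  classical
  have hApos : (0 : ℝ) < A.card := by exact_mod_cast hA.card_pos
  have hL1 : 1 ≤ L := by
    have h1 : A.card ≤ (TH513.IS.sm A n).card := by
      have := TH513.IS.sm_card_mono hA (show 1 ≤ n by omega)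
      rwa [TH513.IS.sm_one] at this
    have h2 : (A.card : ℝ) ≤ (TH513.IS.sm A n).card := by exact_mod_cast h1
    nlinarith
  have hlog0 : 0 ≤ Real.log (2 * L) := Real.log_nonneg (by linarith)
  -- reduction to n ≤ 2 L
  obtain ⟨m, hm2, hmL, hmn, hkm, hdim⟩ : ∃ m : ℕ, 2 ≤ m ∧ (m : ℝ) ≤ 2 * L ∧ m ≤ n ∧
      Real.log (2 * L) ≤ (m : ℝ) ^ k ∧
      420 * (1 + Real.log (2 * L) / Real.log m) ≤
        1100 * (1 + Real.log (2 * L) / Real.log n) := by
    have hlogn : 0 < Real.log n := Real.log_pos (by exact_mod_cast (by omega : 1 < n))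
    have hd0 : 0 ≤ Real.log (2 * L) / Real.log n := div_nonneg hlog0 hlogn.le
    rcases le_or_gt (n : ℝ) (2 * L) with h | h
    · exact ⟨n, hn, h, le_rfl, hkn, by linarith⟩
    · have hf1 : (⌊2 * L⌋₊ : ℝ) ≤ 2 * L := Nat.floor_le (by linarith)
      have hf2 : 2 * L < ⌊2 * L⌋₊ + 1 := Nat.lt_floor_add_one _
      have hf3 : 2 ≤ ⌊2 * L⌋₊ := Nat.le_floor (by push_cast; linarith)
      refine ⟨⌊2 * L⌋₊, hf3, hf1, ?_, ?_, ?_⟩
      · have : (⌊2 * L⌋₊ : ℝ) ≤ n := by linarith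
        exact_mod_cast this
      · have h1 : Real.log (2 * L) ≤ ⌊2 * L⌋₊ := by
          have := Real.log_le_sub_one_of_pos (show 0 < 2 * L by linarith)
          linarith
        have h2 : (1 : ℝ) ≤ ⌊2 * L⌋₊ := by exact_mod_cast (by omega : 1 ≤ ⌊2 * L⌋₊)
        exact h1.trans (le_self_pow₀ h2 (by omega))
      · have := dim_aux hf3 hf1 hf2
        linarith
  have hLm : ((TH513.IS.sm A m).card : ℝ) ≤ L * A.card := by
    have h1 : ((TH513.IS.sm A m).card : ℝ) ≤ (TH513.IS.sm A n).card := by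
      exact_mod_cast TH513.IS.sm_card_mono hA hmn
    exact h1.trans hL
  obtain ⟨e, B, ψ, H₀, T, hd, hB, hH, hvol, hT, hcov⟩ :=
    TH513.IS.iterated hk hm2 hA hLm hkm
  obtain ⟨d, w, Lw, hde, hw, hLw⟩ := body_box hB
  have hdR : (d : ℝ) ≤ 420 * (1 + Real.log (2 * L) / Real.log m) :=
    le_trans (by exact_mod_cast hde) hd
  set c₀ := {c : Fin e → ℤ | (fun i => (c i : ℝ)) ∈ B}.ncard with hc₀
  have hHpos : 0 < Nat.card H₀ := Nat.card_pos
  -- the body contains a lattice point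
  have hc₀1 : 1 ≤ c₀ := by
    by_contra hcon
    have h0 : c₀ = 0 := by omega
    rw [h0, mul_zero] at hLw
    have : 0 < ∏ i, (2 * Lw i + 1) := prod_pos fun i _ => by omega
    omega
  obtain ⟨F, hF⟩ : ∃ F, F = (36 * d ^ 6) ^ d := ⟨_, rfl⟩
  have hF1 : 1 ≤ F := by
    rw [hF]
    rcases Nat.eq_zero_or_pos d with h | h
    · subst h; simp
    · exact Nat.one_le_pow _ _ (by positivity)
  rw [← hF] at hLw
  obtain ⟨M, S, hM, hS, hScov⟩ := shrink (fun i => ψ (w i)) Lw hc₀1 hF1 hLw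
  refine ⟨d, fun i => ψ (w i), M, H₀, T + S, hdR.trans hdim, hH, ?_, ?_, ?_⟩
  · exact (Nat.mul_le_mul_right _ hM).trans hvol
  · have h1 : ((T + S).card : ℝ) ≤ T.card * S.card := by exact_mod_cast card_add_le
    have h2 : (S.card : ℝ) ≤ (2 * L) ^ (66000 * k) := by
      have h3 : (S.card : ℝ) ≤ ((6 ^ d * F : ℕ) : ℝ) := by exact_mod_cast hS
      refine h3.trans (le_trans (le_of_eq ?_) (num hk hm2 hmL hkm hdR))
      rw [hF]
      push_cast
      rw [← mul_pow]
      congr 1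
      ring
    calc ((T + S).card : ℝ) ≤ T.card * S.card := h1
      _ ≤ (2 * L) ^ (86000 * k) * (2 * L) ^ (66000 * k) :=
          mul_le_mul hT h2 (Nat.cast_nonneg _) (by positivity)
      _ = (2 * L) ^ (152000 * k) := by rw [← pow_add]; congr 1; ring
  · intro a ha
    obtain ⟨t, ht, x, hx, h, hh, hax⟩ := hcov a ha
    obtain ⟨b, hb, hxb⟩ := hw x hx
    obtain ⟨s, hs, c, hc, hsc⟩ := hScov b hb
    refine ⟨t + s, add_mem_add ht hs, c, hc, h, hh, ?_⟩
    rw [hax, hxb, map_sum]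
    have : ∑ i, ψ (b i • w i) = s + ∑ i, c i • ψ (w i) := by
      rw [← hsc]
      exact sum_congr rfl fun i _ => map_zsmul _ _ _
    rw [this]
    abel

end Pool.Agent.TH468.IG
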